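import Pool.Agent.helper60.EPT.Spec

set_option autoImplicit false

namespace Pool.Agent.EPT

open D

theorem INJ_zip (X : List D) : ∀ a b : List D,
    (List.zipWith D.cons X a).map snd = (List.zipWith D.cons X b).map snd →
    List.zipWith D.cons X a = List.zipWith D.cons X b := by
  induction X with
  | nil => intro a b _; simp
  | cons x X ih =>
    intro a b h
    cases a with
    | nil =>
      cases b with
      | nil => rfl
      | cons b bs => simp at h
    | cons a as =>
      cases b with
      | nil => simp at h
      | cons b bs =>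
        simp only [List.zipWith_cons_cons, List.map_cons, List.cons.injEq, snd_cons] at h
        simp only [List.zipWith_cons_cons, h.1, ih _ _ h.2]

theorem INJ_ofList {l m : List D} (h : ofList l = ofList m) : l = m := by
  have := congrArg D.toList h
  simpa using this

theorem INJ : INJ_stmt := by
  intro G B hnd u hu w hw hst
  unfold lv at hu hw
  rw [toList_ofList, List.mem_flatMap] at hu hw
  obtain ⟨g, hg, hu⟩ := hu
  obtain ⟨g', hg', hw⟩ := hw
  rw [List.mem_map] at hu hw
  obtain ⟨e, he, rfl⟩ := hu
  obtain ⟨e', he', rfl⟩ := hw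
  rw [List.mem_filter, List.mem_map] at he he'
  obtain ⟨⟨β, hβ, rfl⟩, -⟩ := he
  obtain ⟨⟨β', hβ', rfl⟩, -⟩ := he'
  unfold st at hst
  simp only [fst_cons, snd_cons, D.cons.injEq] at hst
  obtain ⟨h1, h2⟩ := hst
  have hgg : g = g' := List.inj_on_of_nodup_map hnd hg hg' h1
  subst hgg
  have h3 := INJ_ofList h2
  unfold zp at h3 ⊢
  rw [toList_ofList, toList_ofList] at h3
  rw [INJ_zip _ _ _ h3]

end Pool.Agent.EPT
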