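import Pool.Agent.helper60.EPT.SpecS

set_option autoImplicit false

namespace Pool.Agent.EPT

open D

theorem SPT_aux (w u v p q : ℝ) (hu : u ≤ w - p) (hv : v ≤ w - q) (h : (2 : ℝ) ^ (-p) + (2 : ℝ) ^ (-q) ≤ 1) :
    (2 : ℝ) ^ u + (2 : ℝ) ^ v ≤ (2 : ℝ) ^ w := by
  have h1 : (2 : ℝ) ^ u ≤ (2 : ℝ) ^ w * (2 : ℝ) ^ (-p) := by
    rw [← Real.rpow_add (by norm_num)]
    exact Real.rpow_le_rpow_of_exponent_le (by norm_num) (by linarith)
  have h2 : (2 : ℝ) ^ v ≤ (2 : ℝ) ^ w * (2 : ℝ) ^ (-q) := by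
    rw [← Real.rpow_add (by norm_num)]
    exact Real.rpow_le_rpow_of_exponent_le (by norm_num) (by linarith)
  have h3 : 0 < (2 : ℝ) ^ w := Real.rpow_pos_of_pos (by norm_num) w
  calc (2 : ℝ) ^ u + (2 : ℝ) ^ v ≤ (2 : ℝ) ^ w * ((2 : ℝ) ^ (-p) + (2 : ℝ) ^ (-q)) := by
        rw [mul_add]; exact add_le_add h1 h2
    _ ≤ (2 : ℝ) ^ w * 1 := mul_le_mul_of_nonneg_left h h3.le
    _ = (2 : ℝ) ^ w := mul_one _

theorem SPT (hSBR : SBR_stmt) : SPT_stmt := by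
  intro α _ a b x y Λ F j H hW hG hB
  obtain ⟨ha, hb, hx, hy, h1, h2, h3⟩ := hW
  obtain ⟨-, -, hUL, hUR, hrL, hrR, hc⟩ := hSBR α a b Λ F j H ha hb hG hB
  have hUL' : (UU F : ℝ) ≤ UU (red (F ∪ {H})) := by exact_mod_cast hUL
  have hUR' : (UU F : ℝ) ≤ UU (red (F ∪ pet F j H)) := by exact_mod_cast hUR
  have hrL' : (rho a F : ℝ) ≤ rho a (red (F ∪ {H})) := by exact_mod_cast hrL
  have hrR' : (rho a F : ℝ) ≤ rho a (red (F ∪ pet F j H)) := by exact_mod_cast hrR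
  rcases hc with ⟨hl, hr⟩ | ⟨hl, hr⟩ | ⟨hl, hr⟩
  · have hl' : (UU F : ℝ) + 1 ≤ UU (red (F ∪ {H})) := by exact_mod_cast hl
    have hr' : (UU F : ℝ) + a ≤ UU (red (F ∪ pet F j H)) := by exact_mod_cast hr
    refine SPT_aux _ _ _ x (a * x) ?_ ?_ h1
    · unfold W
      nlinarith [mul_le_mul_of_nonneg_left hl' hx.le, mul_le_mul_of_nonneg_left hrL' hy.le]
    · unfold W
      nlinarith [mul_le_mul_of_nonneg_left hr' hx.le, mul_le_mul_of_nonneg_left hrR' hy.le]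
  · have hl' : (rho a F : ℝ) + 1 ≤ rho a (red (F ∪ {H})) := by exact_mod_cast hl
    have hr' : (UU F : ℝ) + a ≤ UU (red (F ∪ pet F j H)) := by exact_mod_cast hr
    refine SPT_aux _ _ _ y (a * x) ?_ ?_ h2
    · unfold W
      nlinarith [mul_le_mul_of_nonneg_left hUL' hx.le, mul_le_mul_of_nonneg_left hl' hy.le]
    · unfold W
      nlinarith [mul_le_mul_of_nonneg_left hr' hx.le, mul_le_mul_of_nonneg_left hrR' hy.le]
  · have hl' : (UU F : ℝ) + 1 ≤ UU (red (F ∪ {H})) := by exact_mod_cast hl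
    have hr' : (rho a F : ℝ) + b ≤ rho a (red (F ∪ pet F j H)) := by exact_mod_cast hr
    refine SPT_aux _ _ _ x (b * y) ?_ ?_ h3
    · unfold W
      nlinarith [mul_le_mul_of_nonneg_left hl' hx.le, mul_le_mul_of_nonneg_left hrL' hy.le]
    · unfold W
      nlinarith [mul_le_mul_of_nonneg_left hUR' hx.le, mul_le_mul_of_nonneg_left hr' hy.le]

end Pool.Agent.EPT
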